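import Mathlib
import Pool.Agent.N865.FB.Defs
import Pool.Agent.N865.JP.Main

/-!
# Solvable varieties of Jordan algebras in odd characteristic need not be finitely based
-/

set_option autoImplicit false

namespace Pool.Agent.Results.MP_a43909_al.SolvableJordan

open N865.FB

universe u

/-- Let `p` be an odd prime and `F` any field of characteristic `p`.  There is a set `S` of
identities such that every `F`-algebra satisfying `S` is a Jordan algebra `A` which is solvable
with `A^(p+1) = 0`, while the variety defined by `S` is not defined by any finite set of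
identities. -/
theorem result (p : ℕ) (hp : p.Prime) (hp2 : p ≠ 2) (F : Type u) [Field F] [CharP F p] :
    ∃ S : Set (N865.FB.Poly F),
      (∀ (A : Type u) [NonUnitalNonAssocRing A] [Module F A] [IsScalarTower F A A]
        [SMulCommClass F A A], InVariety S A → IsJordan' A ∧ solvSeries F A (p + 1) = ⊥) ∧
      ¬ FinitelyBased S := by
  have h3 : 3 ≤ p := by
    have := hp.two_le
    omega
  obtain ⟨q, rfl⟩ : ∃ q, p = q + 1 := ⟨p - 1, by omega⟩
  have : Fact (q + 1).Prime := ⟨hp⟩
  refine ⟨N865.JP.SysP F q, ?_, N865.JP.not_fb (by omega)⟩
  intro A _ _ _ _ h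
  exact N865.JP.var_props q A h

end Pool.Agent.Results.MP_a43909_al.SolvableJordan
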